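import Mathlib
import Pool.Agent.H4R2.Ham

set_option autoImplicit false
set_option linter.unusedSectionVars false

open scoped BigOperators Topology
open Finset Filter
open Pool.Agent.H4R2

namespace Pool.Agent.Results.MP_0f69bf_mp.LocalApprox

/-- Translation invariance up to a phase. -/
def TransInv {d L : ℕ} [NeZero L] (ψ : (Site L → Fin d) → ℂ) : Prop :=
  ∀ u : Site L, ∃ c : ℂ, (fun s => ψ (fun v => s (v + u))) = c • ψ

lemma transInv_of_ground {d L : ℕ} [NeZero L] (B : Finset (ℤ × ℤ))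
    (h : Matrix (B → Fin d) (B → Fin d) ℂ) (Δ : ℝ) (ψ : (Site L → Fin d) → ℂ)
    (hψ : IsGappedGround (ham B h L) Δ ψ) : TransInv ψ := by
  intro u
  obtain ⟨E, h1, h2, _⟩ := hψ
  exact h2 _ (ham_eigen_shift B h u ψ E h1)

/-- The entrywise form of the main estimate. -/
theorem entry_approx (d : ℕ) (hd : 2 ≤ d) (R : Finset (ℤ × ℤ)) (ε : ℝ) (hε : 0 < ε) :
    ∃ L₀ : ℕ, ∀ (L : ℕ) [NeZero L], L₀ ≤ L → ∀ ψ : (Site L → Fin d) → ℂ, normSq ψ = 1 →
      TransInv ψ → ∃ A : Tensor d (bondDim d R ε), ∀ (L' : ℕ) [NeZero L'], L₀ ≤ L' →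
        0 < normSq (contract A L') ∧ ∀ a b,
          ‖redState R (contract A L') a b - redState R ψ a b‖
            ≤ ε / (2 * ((d : ℝ) ^ R.card) ^ 2) := by
  classical
  set M := side d R ε with hM
  have hM1 : 2 * R.card + 2 ≤ M := by rw [hM]; unfold side; omega
  have hM2 : 2 * rad R + 2 ≤ M := by rw [hM]; unfold side; omega
  have : NeZero M := ⟨by omega⟩
  have hM3 : 16 * ((rad R : ℝ) + 2) * (d : ℝ) ^ (2 * R.card) / ε ≤ M := by
    refine (Nat.le_ceil _).trans ?_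
    rw [hM]; unfold side
    push_cast
    have : (0 : ℝ) ≤ 2 * (R.card : ℝ) + 2 * rad R + 2 := by positivity
    linarith
  refine ⟨(M + 2) * (M + 2) + (M + 3) * R.card + 1, ?_⟩
  intro L _ hL ψ hψ hT
  let x : R → ℤ × ℤ := fun y => y
  have hr : ∀ i, |(x i).1| ≤ (rad R : ℕ) ∧ |(x i).2| ≤ (rad R : ℕ) := by
    intro i
    have h1 : max (x i).1.natAbs (x i).2.natAbs ≤ rad R :=
      Finset.le_sup (f := fun x : ℤ × ℤ => max x.1.natAbs x.2.natAbs) i.2
    constructor
    · rw [Int.abs_eq_natAbs]; exact_mod_cast (le_max_left _ _).trans h1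
    · rw [Int.abs_eq_natAbs]; exact_mod_cast (le_max_right _ _).trans h1
  obtain ⟨Φ, hΦ, hΦ2⟩ := exists_block hd ψ hψ x (rad R) hr
    (by rw [Fintype.card_coe]; exact hM1) hM2 (by nlinarith)
    (fun u a b => rdm_shift ψ hψ hT (fun i => toTorus L (x i)) u a b)
  have hcard : Fintype.card (Lab d M) = bondDim d R ε := by
    unfold bondDim
    rw [← hM]
    simp only [Fintype.card_prod, Fintype.card_fin, Fintype.card_pi, prod_const, card_univ]
    ring
  obtain ⟨e⟩ : Nonempty (Fin (bondDim d R ε) ≃ Lab d M) := by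
    rw [← hcard]
    exact ⟨(Fintype.equivFin _).symm⟩
  refine ⟨fun s l r u n => tens hd Φ s (e l) (e r) (e u) (e n), ?_⟩
  intro L' _ hL'
  have hcon : contract (fun s l r u n => tens hd Φ s (e l) (e r) (e u) (e n)) L'
      = contract (tens hd Φ) L' := by
    funext s
    exact contract_equiv e _ _ _
  rw [hcon]
  obtain ⟨h1, h2⟩ := block_main (L := L') hd Φ hΦ x (rad R) hr (Finset.Ico (rad R) (M - 1 - rad R))
    (fun k hk => by rw [Finset.mem_Ico] at hk; omega)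
    (by rw [Finset.nonempty_Ico]; omega) (by nlinarith)
    (by rw [Fintype.card_coe]; nlinarith)
  refine ⟨h1, fun a b => ?_⟩
  have h3 := h2 a b
  rw [hΦ2 a b] at h3
  unfold redState
  simp only [Matrix.smul_apply, smul_eq_mul]
  rw [hψ]
  simp only [Complex.ofReal_one, inv_one, one_mul]
  refine h3.trans ?_
  rw [Nat.card_Ico]
  have h4 : ((M - 1 - rad R - rad R : ℕ) : ℝ) = (M : ℝ) - 1 - rad R - rad R := by
    rw [Nat.cast_sub (by omega), Nat.cast_sub (by omega), Nat.cast_sub (by omega)]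
    simp
  rw [h4]
  have hM0 : (0 : ℝ) < (M : ℝ) + 3 := by positivity
  have h5 : 4 * (1 - ((M : ℝ) - 1 - rad R - rad R) / (M + 3)) = 8 * ((rad R : ℝ) + 2) / (M + 3) := by
    field_simp
    ring
  rw [h5]
  have hdp : (0 : ℝ) < (d : ℝ) ^ R.card := by
    have : (0 : ℝ) < d := by exact_mod_cast (by omega : 0 < d)
    positivity
  rw [div_le_div_iff₀ hM0 (by positivity)]
  rw [div_le_iff₀ hε] at hM3
  have h6 : (d : ℝ) ^ (2 * R.card) = ((d : ℝ) ^ R.card) ^ 2 := by
    rw [← pow_mul]; congr 1; ring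
  rw [h6] at hM3
  nlinarith

lemma traceNorm_le' {d : ℕ} (R : Finset (ℤ × ℤ)) (hd : 2 ≤ d) (X : Matrix (R → Fin d) (R → Fin d) ℂ)
    (ε : ℝ) (hε : 0 < ε) (h : ∀ a b, ‖X a b‖ ≤ ε / ((d : ℝ) ^ R.card) ^ 2) : traceNorm X ≤ ε := by
  have hdp : (0 : ℝ) < (d : ℝ) ^ R.card := by
    have : (0 : ℝ) < d := by exact_mod_cast (by omega : 0 < d)
    positivity
  refine (traceNorm_le X _ (by positivity) h).trans ?_
  simp only [Fintype.card_pi, Fintype.card_fin, prod_const, card_univ, Fintype.card_coe]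
  push_cast
  rw [mul_div_cancel₀]
  positivity

/-- Local approximation by translationally invariant PEPS whose bond dimension is bounded
independently of the system size. -/
theorem result (d : ℕ) (hd : 2 ≤ d) (R : Finset (ℤ × ℤ)) (ε : ℝ) (hε : 0 < ε) :
    ∃ L₀ : ℕ, ∀ (B : Finset (ℤ × ℤ)) (h : Matrix (B → Fin d) (B → Fin d) ℂ)
      (ψ : ∀ (L : ℕ) [NeZero L], (Site L → Fin d) → ℂ), h.IsHermitian → GappedFamily B h ψ →
      (∃ L₁ : ℕ, ∀ (L : ℕ) [NeZero L], L₁ ≤ L → ∃ A : Tensor d (bondDim d R ε),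
        ∀ (L' : ℕ) [NeZero L'], L₀ ≤ L' → contract A L' ≠ 0 ∧
          traceNorm (redState R (ψ L) - redState R (contract A L')) ≤ ε) ∧
      (∀ ρ : Matrix (R → Fin d) (R → Fin d) ℂ,
        Tendsto (fun n : ℕ => redState R (ψ (n + 1))) atTop (𝓝 ρ) →
        ∃ A : Tensor d (bondDim d R ε), ∃ L₁ : ℕ, ∀ (L : ℕ) [NeZero L], L₁ ≤ L →
          contract A L ≠ 0 ∧
          traceNorm (redState R (ψ L) - redState R (contract A L)) ≤ ε) := by
  obtain ⟨L₀, hL₀⟩ := entry_approx d hd R ε hε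
  have hdp : (0 : ℝ) < (d : ℝ) ^ R.card := by
    have : (0 : ℝ) < d := by exact_mod_cast (by omega : 0 < d)
    positivity
  have hne : ∀ {L : ℕ} [NeZero L] (φ : (Site L → Fin d) → ℂ), 0 < normSq φ → φ ≠ 0 := by
    intro L _ φ hφ h0
    rw [h0] at hφ
    simp [normSq] at hφ
  refine ⟨L₀, fun B h ψ _ hgap => ?_⟩
  obtain ⟨Δ, _, L₁, hL₁⟩ := hgap
  refine ⟨⟨max L₀ L₁, fun L _ hL => ?_⟩, fun ρ hρ => ?_⟩
  · obtain ⟨h1, h2⟩ := hL₁ L ((le_max_right _ _).trans hL)
    obtain ⟨A, hA⟩ := hL₀ L ((le_max_left _ _).trans hL) (ψ L) h1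
      (transInv_of_ground B h Δ (ψ L) h2)
    refine ⟨A, fun L' _ hL' => ?_⟩
    obtain ⟨h3, h4⟩ := hA L' hL'
    refine ⟨hne _ h3, traceNorm_le' R hd _ ε hε fun a b => ?_⟩
    rw [Matrix.sub_apply, norm_sub_rev]
    refine (h4 a b).trans ?_
    apply div_le_div_of_nonneg_left hε.le (by positivity)
    nlinarith [pow_pos hdp 2]
  · -- entrywise convergence
    have hconv : ∃ n₀ : ℕ, ∀ n ≥ n₀, ∀ a b,
        ‖redState R (ψ (n + 1)) a b - ρ a b‖ ≤ ε / (4 * ((d : ℝ) ^ R.card) ^ 2) := by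
      have h1 : ∀ a b, ∀ᶠ n in atTop,
          ‖redState R (ψ (n + 1)) a b - ρ a b‖ ≤ ε / (4 * ((d : ℝ) ^ R.card) ^ 2) := by
        intro a b
        have h2 : Tendsto (fun n : ℕ => redState R (ψ (n + 1)) a b) atTop (𝓝 (ρ a b)) := by
          have h3 := (tendsto_pi_nhds.mp hρ) a
          exact (tendsto_pi_nhds.mp h3) b
        have h3 := Metric.tendsto_atTop.mp h2 (ε / (4 * ((d : ℝ) ^ R.card) ^ 2)) (by positivity)
        obtain ⟨N, hN⟩ := h3
        filter_upwards [eventually_ge_atTop N] with n hn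
        have := hN n hn
        rw [dist_eq_norm] at this
        exact this.le
      have h2 : ∀ᶠ n in atTop, ∀ a b,
          ‖redState R (ψ (n + 1)) a b - ρ a b‖ ≤ ε / (4 * ((d : ℝ) ^ R.card) ^ 2) := by
        rw [eventually_all]
        intro a
        rw [eventually_all]
        intro b
        exact h1 a b
      exact eventually_atTop.mp h2
    obtain ⟨n₀, hn₀⟩ := hconv
    -- the reference size
    set K := max L₀ L₁ + n₀ with hK
    obtain ⟨h1, h2⟩ := hL₁ (K + 1) (by omega)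
    obtain ⟨A, hA⟩ := hL₀ (K + 1) (by omega) (ψ (K + 1)) h1
      (transInv_of_ground B h Δ (ψ (K + 1)) h2)
    refine ⟨A, K + 1, fun L _ hL => ?_⟩
    obtain ⟨h3, h4⟩ := hA L (by omega)
    refine ⟨hne _ h3, traceNorm_le' R hd _ ε hε fun a b => ?_⟩
    obtain ⟨n, rfl⟩ : ∃ n, L = n + 1 := ⟨L - 1, by omega⟩
    have h5 := hn₀ n (by omega) a b
    have h6 := hn₀ K (by omega) a b
    have h7 := h4 a b
    have h8 : redState R (ψ (n + 1)) a b - redState R (contract A (n + 1)) a b =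
        (redState R (ψ (n + 1)) a b - ρ a b) - (redState R (ψ (K + 1)) a b - ρ a b)
        - (redState R (contract A (n + 1)) a b - redState R (ψ (K + 1)) a b) := by ring
    rw [Matrix.sub_apply, h8]
    refine (norm_sub_le _ _).trans ?_
    refine (add_le_add (norm_sub_le _ _) le_rfl).trans ?_
    have h9 : ε / ((d : ℝ) ^ R.card) ^ 2 = ε / (4 * ((d : ℝ) ^ R.card) ^ 2) +
        ε / (4 * ((d : ℝ) ^ R.card) ^ 2) + ε / (2 * ((d : ℝ) ^ R.card) ^ 2) := by
      field_simp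
      ring
    rw [h9]
    exact add_le_add (add_le_add h5 h6) h7

end Pool.Agent.Results.MP_0f69bf_mp.LocalApprox
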